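import Pool.Agent.N174.KN.Ring

/-!
# Kimura-finiteness descends from noncommutative to Chow motives

`𝒱` is a class of smooth projective geometrically irreducible varieties over the field `k` closed
under products (for example all of them) and `C` the Chow groups with rational coefficients (in the
form of their formal properties, `IsChowProj`).

The endomorphism ring of the noncommutative Chow motive `U(perf_dg(X))` is `K_0(X × X)`, and with
the Mukai vector this is the ring `A(X × X)` of all self-correspondences of `X`, of all degrees;
the noncommutative Chow motives of varieties form the category of Chow motives with the Tate motive
made trivial (Kontsevich, Tabuada). If the Chow motive of `X` is Kimura-finite, so is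
`U(perf_dg(X))`. The theorem is the converse: **if `U(perf_dg(X))` is Kimura-finite, then the Chow
motive of `X` is Kimura-finite.** In other words, if an idempotent self-correspondence of mixed
degrees defines an even direct factor of `U(perf_dg(X))` with odd complement, then there is also an
idempotent self-correspondence of degree zero with this property. In particular the conjecture that
all noncommutative Chow motives are Kimura-finite implies the conjecture of Kimura and O'Sullivan
that all Chow motives are.

The idea of the proof: let `e` be an idempotent of mixed degrees which is even and whose complement
is odd. The trace on the ring of the self-correspondences of all degrees is invariant under the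
automorphism `φ` which multiplies correspondences of degree `r` by `2 ^ r`. Hence `φ(e)` is again
even with odd complement, and by the theorem of Cayley-Hamilton type of the starting library
(Pool/Agent/TH829/Kim) `e` and `φ(e)` agree modulo the radical of the trace form, which is a nil
ideal. The radical is graded; so the components of `e` of degree not zero belong to the radical.
Therefore the component of degree zero is idempotent modulo the radical; it lifts to an idempotent
of degree zero, which is conjugate to `e`.
-/

open CategoryTheory AlgebraicGeometry

set_option autoImplicit false

universe u v

namespace Pool.Agent.Results.MP_6e5bed_ag.DescentToChowMotives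

open Pool.Agent.H914 Pool.Agent.W492.BB Pool.Agent.TH133 Pool.Agent.TH829.Kim Pool.Agent.N174.KN

/-- The noncommutative Chow motive `U(perf_dg(X))` is Kimura-finite if and only if the Chow motive
of `X` is Kimura-finite. -/
theorem result {k : Type u} [Field k] {𝒱 : VarClass k} (C : TheoryData.{u, v, 0} 𝒱 ℚ)
    [IsChowProj C] (hne : ∀ X : 𝒱.Obj, (1 : C.A X) ≠ 0) (X : 𝒱.Obj) :
    IsNCKimuraFinite C X ↔ IsKimuraFinite C (ratFam C) X :=
  isNCKimuraFinite_iff hne X

end Pool.Agent.Results.MP_6e5bed_ag.DescentToChowMotives
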