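import Pool.Agent.N64.AF.L2

/-!
# Kimura-finiteness of noncommutative Chow motives from the growth of Grothendieck groups

Let `A` be a smooth proper dg category over a field `k` with nonzero (topological) periodic cyclic
homology, satisfying the noncommutative sign conjecture `C⁺`: the projector of the periodic
cyclic homology `HP(A)` (in characteristic `0`; `TP(A)[1/p]` in characteristic `p`) to its even part
is induced by a class in `K_0(A^op ⊗ A)_ℚ`. For `A = perf(X)` this is the usual sign conjecture, known
for ALL `X` over finite fields (Katz and Messing) and for products of curves, surfaces, abelian
varieties, complete intersections over all fields; it passes to tensor products, opposite categories,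
semi-orthogonal components of such categories with `C⁺`, and twists by Azumaya algebras.

For `n ≥ 0` let `δ (n) = dim K_0((A^op ⊗ A)^⊗n)_ℚ`, a number or infinity: this is the dimension of the
algebra of endomorphisms of `U(A)^⊗n` in `NChow(k)_ℚ`. Let `ε (n)` be the dimension of the quotient
modulo the numerically trivial classes (the kernel of the Euler pairing).

Theorem. The quotient `δ (n) / ε (n)` converges, for `n → ∞`, to a NATURAL NUMBER `N ≥ 1` or to
infinity. It is `1` if and only if there are no numerically trivial classes `≠ 0` in all groups
`K_0((A^op ⊗ A)^⊗n)_ℚ`. If `N` is finite then

* the groups `K_0((A^op ⊗ A)^⊗n)_ℚ` are finite-dimensional for all `n`;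
* for all `n` the product of any `N` numerically trivial endomorphisms of `U(A)^⊗n` is zero;
* the noncommutative Chow motive `U(A)_ℚ` is Kimura-finite.

So Kimura-finiteness of `U(A)_ℚ` follows from a bound `dim K_0((A^op ⊗ A)^⊗n)_ℚ ≤ c ε (n)` for
infinitely many `n` and some constant `c`. Such bounds are expected over finite fields, where the
groups `K_0` are expected to be finitely generated (Bass) and numerical equivalence should be trivial
(Beilinson): the theorem says that any such bound, however bad the constant, gives Kimura-finiteness.
No relation between `A` and its opposite category is required, `U(A)` need not be self-dual, and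
`A` need not be related to a scheme.

The setting. `C` is the category `NChow(k)_ℚ`, a rigid symmetric monoidal `ℚ`-linear pseudo-abelian
category (the dual of `U(A)` is `U(A^op)`), `T = U(A)`, `tp T n = U(A^⊗n)`, and `R` is the symmetric
monoidal functor given by periodic cyclic homology (or topological periodic cyclic homology: Blumberg
and Mandell, Tabuada) with coefficients extended to an algebraically closed field. The theorem also
holds for Chow motives, with `CH^{d n}(X^n × X^n)`, the degree zero correspondences, in place of `K_0`.

Idea of the proof. `S = T ⊗ T^∨` is self-dual, satisfies `C⁺`, and the unit object is a direct factor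
of `S` by `C⁺`, since the trace of the sign operator is the total dimension. The groups of
morphisms from the unit object to the powers of `S` are the endomorphism algebras of the powers of
`T`. The law of the dimensions of the values of additive functors on powers of `S` gives the limit;
if it is finite then compositions of `N` numerically trivial morphisms between powers of `S`
vanish. An endomorphism `y` of `T^⊗n` gives the endomorphism `y ⊗ 1` of `S^⊗n`, which determines `y`.
Finally the idempotent modulo numerical equivalence given by `C⁺` lifts to an idempotent of `T`, and
the exterior and symmetric powers of the two summands of sufficiently large degree are cut out by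
homologically trivial idempotents, which are nilpotent, hence zero.

Authors: helper64 (plan, law and structure theorem), helper878 (objects which are not self-dual),
helper413 (the object `T ⊗ T^∨`), helper645 (nilpotence of the numerical ideal), helper861 (Kimura
finite-dimensionality), and, for the lemmas of the law, helper136, helper327, helper199, helper767,
helper8, helper364, helper216, helper73, helper833, helper140, helper494, helper505, helper301,
helper441, helper591, helper712.
-/

set_option autoImplicit false

open CategoryTheory MonoidalCategory Module Filter Topology
open Pool.Agent.Y112.SR Pool.Agent.Y112.KD Pool.Agent.N64.AF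
open scoped ENNReal

namespace Pool.Agent.Results.MP_6e5bed_ag.EndomorphismGrowth

universe v u w

/-- The size of the endomorphism algebras of the powers of `T` and Kimura finiteness. -/
theorem result {C : Type u} [Category.{v} C] [Preadditive C] [MonoidalCategory C]
    [MonoidalPreadditive C] [SymmetricCategory C] [RightRigidCategory C]
    [Linear ℚ C] [MonoidalLinear ℚ C] [IsIdempotentComplete C]
    {K : Type w} [Field K] [IsAlgClosed K] [Algebra ℚ K] (R : SuperRealisation C K)
    (hR : IsReal ℚ R) (T : C) (hT : R.CPlus T) (hb : 0 < bt R T) :
    ∃ N : ℕ∞, N ≠ 0 ∧
      Tendsto (fun n => ((dimE ℚ (tp T n ⟶ tp T n) : ℕ∞) : ℝ≥0∞) /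
        nr ℚ (𝟙 (tp T n)) (𝟙 (tp T n))) atTop (𝓝 (N : ℝ≥0∞)) ∧
      (N = 1 ↔ ∀ (n : ℕ) (y : tp T n ⟶ tp T n), NumTriv y → y = 0) ∧
      ∀ k : ℕ, N = k → (∀ n, Module.Finite ℚ (tp T n ⟶ tp T n)) ∧
        (∀ (n : ℕ) (l : List (End (tp T n))), l.length = k →
          (∀ y ∈ l, NumTriv (y : tp T n ⟶ tp T n)) → l.prod = 0) ∧
        Pool.Agent.R905.IsKimuraFinite T :=
  end_law hR hT hb

end Pool.Agent.Results.MP_6e5bed_ag.EndomorphismGrowth
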