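import Pool.Agent.N64.AF.X18

/-!
# Kimura-finiteness of a noncommutative Chow motive from ONE inequality

Let `A` be a smooth proper dg category over a field `k` which satisfies the noncommutative sign conjecture
`C⁺` (the projector onto the even part of `HP(A)`, resp. `TP(A)` in characteristic `p`, is given by an
element of `K_0(A^op ⊗ A) ⊗ ℚ`), e.g. `perf(X)` for all smooth projective `X` over finite fields and, over arbitrary fields,
for curves, surfaces, abelian varieties, complete intersections, and tensor products and admissible subcategories with
`C⁺` of these. Let `b > 0` be the dimension of `HP(A)`, `B = b + 1`, `R (n)` the rank of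
`K_0((A^op ⊗ A)^{⊗ n})` modulo the kernel of the Euler pairing, and `g (n)` the dimension of the space of the
homologically trivial elements of `K_0((A^op ⊗ A)^{⊗ n}) ⊗ ℚ` modulo the smash nilpotent ones.

Theorem. Each of the following conditions implies that `U(A)_ℚ` is Kimura-finite:
(1) `g (B (a + 2)) < (a + 1) R (B a)` for ONE `a ≥ 0`;
(2) `g (2 B n) < ∑_{t = 1}^{n} C(n, t) R (2 B (n - t))` for ONE `n`;
(3) `(2 B n + 1)^(b^2) g (2 B n) + b^(4 B n) < (b^(4 B) + 1)^n` for ONE `n`.

For `a = 0` condition (1) says that the homologically trivial elements are smash nilpotent (a noncommutative version of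
Voevodsky's conjecture), and then the conclusion is essentially known; for `a ≥ 1` and in (2), (3) nothing
is required of the individual elements, only the size of ONE group is bounded. By (3) there is a gap for the growth rate:
`R (n) ≤ b^{2 n}` has the rate `b^2`; if `U(A)_ℚ` is not Kimura-finite then `g (2 B n)` grows with the rate
`(b^{4 B} + 1)^{1 / 2 B} > b^2` at least, that is faster than `R (2 B n)` and than `dim HP((A^op ⊗ A)^{2 B n})` by an
EXPONENTIAL factor. No conjecture is assumed but `C⁺` for `A`.

The setting: `C = NChow(k)_ℚ`, `M = U(A)`, `Mᘁ = U(A^op)`, `Hom(1, (M ⊗ Mᘁ)^n) = K_0((A^op ⊗ A)^{⊗ n})_ℚ`, `R` is periodic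
cyclic homology, resp. `TP[1/p]`, with extended coefficients. `M` is not self-dual.

Idea of the proof. `S = M ⊗ M^∨` is self-dual and contains the unit object. If `M` is not Kimura-finite then there is a
homologically trivial endomorphism of some `M^m`, `m ≤ B`, which is not nilpotent, hence such an
endomorphism `f` of `S^B`. (1) An endomorphism whose class is smash nilpotent is nilpotent; therefore `f`
acts non-nilpotently on the classes modulo smash nilpotent ones; a polynomial in `f` gives a class `z ≠ 0` which is killed by a
morphism numerically equal to the identity, and its insertions in the `a + 1` factors give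
`(a + 1) R (B a)` independent classes. (2) Let `Y = S^B ⊗ S^B`. A polynomial `e` without constant term in `f` acts as an
idempotent in each of the `n` factors `Y` on the (finite-dimensional) space `G` of the classes on `Y^n`; hence `G`
is the direct sum of subspaces `V_S`, `S` a subset of the set of the factors, and `V_S` contains, for `S ≠ ∅`, the independent
images of the products of classes on `Y^{n - |S|}`, independent modulo numerical equivalence, and of the
class of `f e` in the factors in `S`. (3) follows from (2) and `(n + 1)^(b^2) R (n) ≥ b^(2 n)`.

Compared with EndomorphismGrowth (this problem: `dim K_0 / R (n)` tends to a natural number or to `∞`, and Kimura-finiteness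
follows from a bound `c R (n)` for infinitely many `n`): here ONE inequality on one power suffices, only
homologically trivial elements modulo smash nilpotent ones are counted, and the threshold is raised by an exponential
factor. The commutative (self-dual) case of (1), (2): MP_fc2ced_ag.OneInequality, RateGap.

Authors: helper64 (this result, plan), and, for the lemmas of the law used here, helper136, helper327,
helper199, helper767, helper8, helper364, helper216, helper73, helper833, helper140, helper494,
helper505, helper301, helper441, helper591, helper712, helper945, helper701, helper344, helper690,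
helper322 (smash nilpotence), helper413 (pairings), helper861 (finite-dimensionality from nilpotence),
helper878 (endomorphisms of powers).
-/

set_option autoImplicit false

open CategoryTheory MonoidalCategory Module Finset
open Pool.Agent.Y112.SR Pool.Agent.Y112.KD Pool.Agent.N64.AF

namespace Pool.Agent.Results.MP_6e5bed_ag.OneInequality

universe v u w

/-- Kimura finite-dimensionality of `M` from one inequality on one power of `M ⊗ Mᘁ`. -/
theorem result {C : Type u} [Category.{v} C] [Preadditive C] [MonoidalCategory C]
    [MonoidalPreadditive C] [SymmetricCategory C] [RightRigidCategory C]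
    [Linear ℚ C] [MonoidalLinear ℚ C] [IsIdempotentComplete C]
    {K : Type w} [Field K] [IsAlgClosed K] [Algebra ℚ K] (R : SuperRealisation C K)
    (hR : IsReal ℚ R) (M : C) (hM : R.CPlus M) (hb : 0 < bt R M) (B : ℕ) (hB : B = bt R M + 1) :
    (∀ a : ℕ, hsDim hR (M ⊗ Mᘁ) (B * (a + 2)) <
      (((a + 1) * nr ℚ (𝟙 (tp M (B * a))) (𝟙 (tp M (B * a))) : ℕ) : ℕ∞) →
      Pool.Agent.R905.IsKimuraFinite M) ∧
    (∀ n : ℕ, hsDim hR (M ⊗ Mᘁ) (2 * B * n) <
      ((∑ ij ∈ antidiagonal n with 0 < ij.1,
        n.choose ij.1 * nr ℚ (𝟙 (tp M (2 * B * ij.2))) (𝟙 (tp M (2 * B * ij.2))) : ℕ) : ℕ∞) →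
      Pool.Agent.R905.IsKimuraFinite M) ∧
    ∀ n : ℕ, (((2 * B * n + 1) ^ (bt R M ^ 2) : ℕ) : ℕ∞) * hsDim hR (M ⊗ Mᘁ) (2 * B * n) +
      ((bt R M ^ (4 * B * n) : ℕ) : ℕ∞) < (((bt R M ^ (4 * B) + 1) ^ n : ℕ) : ℕ∞) →
      Pool.Agent.R905.IsKimuraFinite M :=
  kimura_dual hR hM hb hB

end Pool.Agent.Results.MP_6e5bed_ag.OneInequality
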